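import Mathlib

/-!
MP_8aa97c_co, the upper half of Q1.  For every `n ≥ 1`,
`φ_±(ℤ_n,[0,2]) ≤ (√3/2)·√n + C·n^(1/4)` with an absolute constant `C`; in particular
`limsup φ_±(ℤ_n,[0,2])/√n ≤ √3/2 < 1`.

Construction: write `n = 2a(2U+1) + r` with `r ≈ 2a`, `2U+1 ≈ 6a` (errors `O(n^(1/4))`).  Take the
symmetric arithmetic progressions `V` (difference `T = 2U+1`, centre `0`), `D` (difference `2U`,
centre at the half step) and `H` (difference `1`, centre `n/2`), each with about `2a` elements.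
Then `H+V`, `H+D` and `V+D` cover the torus `ℤ_n` like three lozenges forming a hexagon.
-/

namespace Pool.Agent.Results.MP_8aa97c_co.UpperHalf

/-- `A ⊆ ℤ_n` is `s`-spanning: every `g` is an integer combination of elements of `A` with
sum of absolute values of the coefficients at most `s`. -/
def IsSpanning (n s : ℕ) (A : Finset (ZMod n)) : Prop :=
  ∀ g : ZMod n, ∃ c : ZMod n → ℤ, (∑ a ∈ A, |c a|) ≤ (s : ℤ) ∧ g = ∑ a ∈ A, c a • a

/-- `φ_±(ℤ_n,[0,s])`, the least size of an `s`-spanning subset of `ℤ_n`. -/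
noncomputable def phi (n s : ℕ) : ℕ :=
  sInf {m : ℕ | ∃ A : Finset (ZMod n), A.card = m ∧ IsSpanning n s A}

/-- `g` lies in `A ∪ (-A) ∪ {0}`. -/
def Sym {n : ℕ} (A : Finset (ZMod n)) (g : ZMod n) : Prop := g = 0 ∨ g ∈ A ∨ -g ∈ A

theorem sym_neg {n : ℕ} {A : Finset (ZMod n)} {g : ZMod n} (h : Sym A g) : Sym A (-g) := by
  rcases h with h | h | h
  · left; rw [h, neg_zero]
  · right; right; rwa [neg_neg]
  · right; left; exact h

theorem sym_one {n : ℕ} {A : Finset (ZMod n)} {g : ZMod n} (h : Sym A g) :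
    ∃ c : ZMod n → ℤ, (∑ a ∈ A, |c a|) ≤ 1 ∧ g = ∑ a ∈ A, c a • a := by
  classical
  rcases h with h | h | h
  · exact ⟨fun _ => 0, by simp, by simp [h]⟩
  · refine ⟨fun a => if a = g then 1 else 0, ?_, ?_⟩
    · have : ∀ a ∈ A, |(if a = g then (1:ℤ) else 0)| = if a = g then 1 else 0 := by
        intro a _; split_ifs <;> simp
      rw [Finset.sum_congr rfl this, Finset.sum_ite_eq' A g]
      simp [h]
    · have : ∀ a ∈ A, (if a = g then (1:ℤ) else 0) • a = if a = g then a else 0 := by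
        intro a _; split_ifs <;> simp
      rw [Finset.sum_congr rfl this, Finset.sum_ite_eq' A g]
      simp [h]
  · refine ⟨fun a => if a = -g then -1 else 0, ?_, ?_⟩
    · have : ∀ a ∈ A, |(if a = -g then (-1:ℤ) else 0)| = if a = -g then 1 else 0 := by
        intro a _; split_ifs <;> simp
      rw [Finset.sum_congr rfl this, Finset.sum_ite_eq' A (-g)]
      simp [h]
    · have : ∀ a ∈ A, (if a = -g then (-1:ℤ) else 0) • a = if a = -g then -a else 0 := by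
        intro a _; split_ifs <;> simp
      rw [Finset.sum_congr rfl this, Finset.sum_ite_eq' A (-g)]
      simp [h]

theorem spanning_of_sym {n : ℕ} {A : Finset (ZMod n)}
    (h : ∀ g : ZMod n, ∃ u v, Sym A u ∧ Sym A v ∧ g = u + v) : IsSpanning n 2 A := by
  intro g
  obtain ⟨u, v, hu, hv, rfl⟩ := h g
  obtain ⟨c, hc, hcu⟩ := sym_one hu
  obtain ⟨d, hd, hdv⟩ := sym_one hv
  refine ⟨fun a => c a + d a, ?_, ?_⟩
  · calc (∑ a ∈ A, |c a + d a|) ≤ ∑ a ∈ A, (|c a| + |d a|) :=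
        Finset.sum_le_sum fun a _ => abs_add_le _ _
      _ = (∑ a ∈ A, |c a|) + ∑ a ∈ A, |d a| := Finset.sum_add_distrib
      _ ≤ 1 + 1 := add_le_add hc hd
      _ = ((2 : ℕ) : ℤ) := by norm_num
  · rw [hcu, hdv]
    conv_lhs => rw [← hcu, ← hdv]
    rw [hcu, hdv, ← Finset.sum_add_distrib] 
    apply Finset.sum_congr rfl
    intro a _
    rw [add_smul]

/-- The multiples of `T`. -/
def AV (n T J : ℕ) : Finset (ZMod n) :=
  (Finset.Icc 1 J).image fun j : ℕ => (((j : ℤ) * (T : ℤ) : ℤ) : ZMod n)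

/-- The odd multiples of `U`. -/
def AD (n U K : ℕ) : Finset (ZMod n) :=
  (Finset.range K).image fun k : ℕ => (((2 * (k : ℤ) + 1) * (U : ℤ) : ℤ) : ZMod n)

/-- The interval just below `n/2`. -/
def AH (n a T r M : ℕ) : Finset (ZMod n) :=
  (Finset.range (M + 1)).image fun i : ℕ =>
    (((a : ℤ) * (T : ℤ) + ((r / 2 : ℕ) : ℤ) - (i : ℤ) : ℤ) : ZMod n)

/-- The spanning set. -/
def AA (n a U r J K M : ℕ) : Finset (ZMod n) :=
  AV n (2 * U + 1) J ∪ AD n U K ∪ AH n a (2 * U + 1) r M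

theorem card_AA (n a U r J K M : ℕ) : (AA n a U r J K M).card ≤ J + K + (M + 1) := by
  unfold AA
  refine (Finset.card_union_le _ _).trans ?_
  refine add_le_add ((Finset.card_union_le _ _).trans (add_le_add ?_ ?_)) ?_
  · refine Finset.card_image_le.trans ?_
    simp
  · refine Finset.card_image_le.trans ?_
    simp
  · refine Finset.card_image_le.trans ?_
    simp

theorem sym_V (n a U r J K M : ℕ) (j : ℤ) (h1 : -(J : ℤ) ≤ j) (h2 : j ≤ J) :
    Sym (AA n a U r J K M) ((j * (2 * U + 1) : ℤ) : ZMod n) := by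
  rcases lt_trichotomy j 0 with h | h | h
  · right; right
    unfold AA AV
    rw [Finset.mem_union, Finset.mem_union]
    left; left
    rw [Finset.mem_image]
    refine ⟨(-j).toNat, ?_, ?_⟩
    · rw [Finset.mem_Icc]; omega
    · have : (((-j).toNat : ℕ) : ℤ) = -j := Int.toNat_of_nonneg (by omega)
      rw [this]
      push_cast
      ring
  · left; rw [h]; simp
  · right; left
    unfold AA AV
    rw [Finset.mem_union, Finset.mem_union]
    left; left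
    rw [Finset.mem_image]
    refine ⟨j.toNat, ?_, ?_⟩
    · rw [Finset.mem_Icc]; omega
    · have : ((j.toNat : ℕ) : ℤ) = j := Int.toNat_of_nonneg (by omega)
      rw [this]
      push_cast
      ring

theorem sym_D (n a U r J K M : ℕ) (k : ℤ) (h1 : -(K : ℤ) ≤ k) (h2 : k ≤ K - 1) :
    Sym (AA n a U r J K M) (((2 * k + 1) * U : ℤ) : ZMod n) := by
  rcases lt_or_ge k 0 with h | h
  · right; right
    unfold AA AD
    rw [Finset.mem_union, Finset.mem_union]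
    left; right
    rw [Finset.mem_image]
    refine ⟨(-k - 1).toNat, ?_, ?_⟩
    · rw [Finset.mem_range]; omega
    · have : (((-k - 1).toNat : ℕ) : ℤ) = -k - 1 := Int.toNat_of_nonneg (by omega)
      rw [this]
      push_cast
      ring
  · right; left
    unfold AA AD
    rw [Finset.mem_union, Finset.mem_union]
    left; right
    rw [Finset.mem_image]
    refine ⟨k.toNat, ?_, ?_⟩
    · rw [Finset.mem_range]; omega
    · have : ((k.toNat : ℕ) : ℤ) = k := Int.toNat_of_nonneg (by omega)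
      rw [this]

theorem mem_H (n a U r J K M : ℕ) (x : ℤ) (h1 : 2 * x ≤ r) (h2 : (r : ℤ) ≤ 2 * x + 2 * M) :
    (((a : ℤ) * (2 * U + 1) + x : ℤ) : ZMod n) ∈ AA n a U r J K M := by
  unfold AA AH
  rw [Finset.mem_union]
  right
  rw [Finset.mem_image]
  refine ⟨(((r / 2 : ℕ) : ℤ) - x).toNat, ?_, ?_⟩
  · rw [Finset.mem_range]; omega
  · have : ((((r / 2 : ℕ) : ℤ) - x).toNat : ℤ) = ((r / 2 : ℕ) : ℤ) - x :=
      Int.toNat_of_nonneg (by omega)
    rw [this]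
    congr 1
    push_cast
    ring

theorem sym_H (n a U r J K M : ℕ) (hn : n = 2 * a * (2 * U + 1) + r) (x : ℤ)
    (h1 : 2 * x ≤ r + 2 * M) (h2 : (r : ℤ) ≤ 2 * x + 2 * M) :
    Sym (AA n a U r J K M) (((a : ℤ) * (2 * U + 1) + x : ℤ) : ZMod n) := by
  rcases le_or_gt (2 * x) r with h | h
  · right; left
    exact mem_H n a U r J K M x h h2
  · right; right
    have e : -(((a : ℤ) * (2 * U + 1) + x : ℤ) : ZMod n) =
        (((a : ℤ) * (2 * U + 1) + (r - x) : ℤ) : ZMod n) := by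
      have h0 : ((n : ℤ) : ZMod n) = 0 := by simp
      have : (((a : ℤ) * (2 * U + 1) + (r - x) : ℤ)) = (n : ℤ) - ((a : ℤ) * (2 * U + 1) + x) := by
        rw [hn]; push_cast; ring
      rw [this, Int.cast_sub, h0, zero_sub]
    rw [e]
    exact mem_H n a U r J K M (r - x) (by omega) (by omega)

/-- Every residue is `x + yT` with `0 ≤ x < T` and `0 ≤ y ≤ 2a`. -/
theorem coords (n a U r : ℕ) (hn : n = 2 * a * (2 * U + 1) + r) (hr : r < 2 * U + 1)
    (hn0 : 0 < n) (g : ZMod n) : ∃ x y : ℕ, x ≤ 2 * U ∧ y ≤ 2 * a ∧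
      g = (((x : ℤ) + (y : ℤ) * (2 * U + 1) : ℤ) : ZMod n) := by
  have : NeZero n := ⟨by omega⟩
  have hTpos : 0 < 2 * U + 1 := by omega
  have hxT : g.val % (2 * U + 1) < 2 * U + 1 := Nat.mod_lt _ hTpos
  have hval : g.val % (2 * U + 1) + (2 * U + 1) * (g.val / (2 * U + 1)) = g.val :=
    Nat.mod_add_div _ _
  have hgn : g.val < n := ZMod.val_lt g
  have h1 : ((g.val : ℕ) : ZMod n) = g := ZMod.natCast_zmod_val g
  generalize g.val % (2 * U + 1) = x at hxT hval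
  generalize g.val / (2 * U + 1) = y at hval
  refine ⟨x, y, by omega, ?_, ?_⟩
  · by_contra hcon
    have h1 : (2 * a + 1) * (2 * U + 1) ≤ y * (2 * U + 1) :=
      Nat.mul_le_mul_right _ (by omega)
    nlinarith
  · rw [← h1, ← hval]
    push_cast
    ring

/-- The covering lemma. -/
theorem cover (n a U r J K M : ℕ) (hn : n = 2 * a * (2 * U + 1) + r) (hr : r < 2 * U + 1)
    (hn0 : 0 < n)
    (c1 : r ≤ 2 * M) (c2 : a + 1 ≤ K) (c3 : a ≤ J) (c4 : J ≤ K)
    (c5 : 2 * U + 1 ≤ 2 * M + r + 2 * K) (c6 : 2 * U ≤ 2 * M + r + 2 * J + 1)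
    (c7 : r + 2 * a + 2 ≤ 2 * M + 2 * K) (c8 : U ≤ r + K) (c9 : r + 2 * a ≤ 2 * M + 2 * J + 1)
    (c10 : U ≤ r + J) : IsSpanning n 2 (AA n a U r J K M) := by
  apply spanning_of_sym
  intro g
  obtain ⟨x, y, hx, hy, hg⟩ := coords n a U r hn hr hn0 g
  rw [hg]
  have h0 : ((n : ℤ) : ZMod n) = 0 := by simp
  have hnz : (n : ℤ) = 2 * a * (2 * U + 1) + r := by rw [hn]; push_cast; ring
  by_cases hA : 2 * (x : ℤ) ≤ r + 2 * M
  · -- box `H + V`
    refine ⟨(((a : ℤ) * (2 * U + 1) + x : ℤ) : ZMod n),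
      ((((y : ℤ) - a) * (2 * U + 1) : ℤ) : ZMod n),
      sym_H n a U r J K M hn x hA (by omega), sym_V n a U r J K M _ (by omega) (by omega), ?_⟩
    rw [← Int.cast_add]
    congr 1
    ring
  · by_cases hB : (x : ℤ) + y ≤ U + J
    · -- `V + D`
      refine ⟨((((x : ℤ) + y - U) * (2 * U + 1) : ℤ) : ZMod n),
        (((2 * ((U : ℤ) - x) + 1) * U : ℤ) : ZMod n),
        sym_V n a U r J K M _ (by omega) (by omega),
        sym_D n a U r J K M _ (by omega) (by omega), ?_⟩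
      rw [← Int.cast_add]
      congr 1
      ring
    · by_cases hC : 2 * ((x : ℤ) + y) ≤ r + 2 * a + 2 * U + 2 * M
      · -- `H + D`
        refine ⟨(((a : ℤ) * (2 * U + 1) + ((x : ℤ) + y - a - U) : ℤ) : ZMod n),
          (((2 * ((y : ℤ) - a) + 1) * U : ℤ) : ZMod n),
          sym_H n a U r J K M hn _ (by omega) (by omega),
          sym_D n a U r J K M _ (by omega) (by omega), ?_⟩
        rw [← Int.cast_add]
        congr 1
        ring
      · -- `V + D`, wrapped around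
        refine ⟨((((x : ℤ) + y - r - 2 * a - U) * (2 * U + 1) : ℤ) : ZMod n),
          (((2 * ((U : ℤ) - (x - r)) + 1) * U : ℤ) : ZMod n),
          sym_V n a U r J K M _ (by omega) (by omega),
          sym_D n a U r J K M _ (by omega) (by omega), ?_⟩
        rw [← Int.cast_add]
        have e : ((x : ℤ) + (y : ℤ) * (2 * U + 1)) =
            (((x : ℤ) + y - r - 2 * a - U) * (2 * U + 1) + (2 * ((U : ℤ) - (x - r)) + 1) * U) + n := by
          rw [hnz]; ring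
        rw [e, Int.cast_add, h0, add_zero]

theorem aux (t W X Y a x ν : ℤ) (key : t = ν - 4 * W + 12 * X + 4 * Y + 2 * a)
    (h1 : 3 * X ≤ W) (h2 : W ≤ 3 * X + 6 * x + 2) (h3 : 0 ≤ Y) (h4 : Y ≤ 7 * x) (h5 : 0 ≤ ν)
    (h6 : ν ≤ 3) : 2 * a - 24 * x - 8 ≤ t ∧ t ≤ 2 * a + 28 * x + 3 := by omega

/-- Choice of the parameters. -/
theorem params (n : ℕ) (hn : 58800 ≤ n) : ∃ A x a U r : ℕ, 12 * A ^ 2 ≤ n ∧ 3 * x ^ 2 ≤ A ∧
    a + x = A ∧ n = 2 * a * (2 * U + 1) + r ∧ r ≤ 2 * a + 28 * x + 3 ∧ 2 * a ≤ r + 24 * x + 8 ∧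
    3 * a ≤ U ∧ U ≤ 3 * a + 6 * x + 6 ∧ 70 ≤ A := by
  obtain ⟨N, ν, hN, hν⟩ : ∃ N ν : ℕ, n = 4 * N + ν ∧ ν ≤ 3 :=
    ⟨n / 4, n % 4, by omega, by omega⟩
  obtain ⟨A, hA1, hA2⟩ : ∃ A : ℕ, 3 * A ^ 2 ≤ N ∧ N < 3 * (A + 1) ^ 2 := by
    refine ⟨Nat.sqrt (N / 3), ?_, ?_⟩
    · have := Nat.sqrt_le' (N / 3)
      omega
    · have := Nat.lt_succ_sqrt' (N / 3)
      rw [Nat.succ_eq_add_one] at this
      omega
  have hA70 : 70 ≤ A := by
    by_contra h
    have h1 : A + 1 ≤ 70 := by omega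
    have h2 : (A + 1) ^ 2 ≤ 70 ^ 2 := Nat.pow_le_pow_left h1 2
    omega
  obtain ⟨ρ, hρ⟩ : ∃ ρ : ℕ, N = 3 * A ^ 2 + ρ := ⟨N - 3 * A ^ 2, by omega⟩
  have hρ2 : ρ < 6 * A + 3 := by nlinarith
  obtain ⟨e, W, he1, heW, hW1, hW2, he7⟩ : ∃ e W : ℕ, 1 ≤ e ∧ ρ + W = A * e ∧ 1 ≤ W ∧ W ≤ A ∧
      e ≤ 7 := by
    have h1 : ρ % A + A * (ρ / A) = ρ := Nat.mod_add_div _ _
    have h2 : ρ % A < A := Nat.mod_lt _ (by omega)
    generalize ρ % A = u at h1 h2
    generalize ρ / A = v at h1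
    have hv : v ≤ 6 := by
      by_contra hcon
      have : A * 7 ≤ A * v := Nat.mul_le_mul_left _ (by omega)
      omega
    refine ⟨v + 1, A - u, by omega, ?_, by omega, by omega, by omega⟩
    have : A * (v + 1) = A * v + A := by ring
    omega
  obtain ⟨x, hx1, hx2⟩ : ∃ x : ℕ, 3 * x ^ 2 ≤ W ∧ W < 3 * (x + 1) ^ 2 := by
    refine ⟨Nat.sqrt (W / 3), ?_, ?_⟩
    · have := Nat.sqrt_le' (W / 3)
      omega
    · have := Nat.lt_succ_sqrt' (W / 3)
      rw [Nat.succ_eq_add_one] at this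
      omega
  have hxA : 13 * x + 4 ≤ A := by
    rcases le_or_gt x 5 with h | h
    · omega
    · have : 5 * x ≤ x ^ 2 := by nlinarith
      omega
  obtain ⟨a, ha⟩ : ∃ a : ℕ, a + x = A := ⟨A - x, by omega⟩
  obtain ⟨U, hU⟩ : ∃ U : ℕ, U + 1 = 3 * A + 3 * x + e := ⟨3 * A + 3 * x + e - 1, by omega⟩
  have key : (n : ℤ) - 2 * a * (2 * U + 1) = ν - 4 * W + 12 * x ^ 2 + 4 * (x * e) + 2 * a := by
    have e1 : (n : ℤ) = 4 * N + ν := by exact_mod_cast hN
    have e2 : (N : ℤ) = 3 * A ^ 2 + ρ := by exact_mod_cast hρ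
    have e3 : (ρ : ℤ) = A * e - W := by
      have : (ρ : ℤ) + W = A * e := by exact_mod_cast heW
      linarith
    have e4 : (U : ℤ) = 3 * A + 3 * x + e - 1 := by
      have : (U : ℤ) + 1 = 3 * A + 3 * x + e := by exact_mod_cast hU
      linarith
    have e5 : (a : ℤ) = A - x := by
      have : (a : ℤ) + x = A := by exact_mod_cast ha
      linarith
    rw [e1, e2, e3, e4, e5]
    ring
  have hxe : (x : ℤ) * e ≤ 7 * x := by
    have : x * e ≤ x * 7 := Nat.mul_le_mul_left _ he7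
    zify at this
    linarith
  have hxe0 : (0 : ℤ) ≤ (x : ℤ) * e := by positivity
  have hx1' : (3 * x ^ 2 : ℤ) ≤ W := by exact_mod_cast hx1
  have hx2' : (W : ℤ) ≤ 3 * x ^ 2 + 6 * x + 2 := by
    have h : (W : ℤ) < 3 * (x + 1) ^ 2 := by exact_mod_cast hx2
    have h' : (3 * (x + 1) ^ 2 : ℤ) = 3 * x ^ 2 + 6 * x + 3 := by ring
    rw [h'] at h
    omega
  have hνz : (ν : ℤ) ≤ 3 := by exact_mod_cast hν
  have hν0 : (0 : ℤ) ≤ ν := by positivity
  obtain ⟨hlo, hup⟩ := aux _ W (x ^ 2) (x * e) a x ν key hx1' hx2' hxe0 hxe hν0 hνz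
  have hpos : (0 : ℤ) ≤ (n : ℤ) - 2 * a * (2 * U + 1) := by
    have h1 : (0 : ℤ) ≤ 2 * (a : ℤ) - 24 * x - 8 := by omega
    exact h1.trans hlo
  obtain ⟨r, hr⟩ := Int.eq_ofNat_of_zero_le hpos
  rw [hr] at hup hlo
  have hnr : n = 2 * a * (2 * U + 1) + r := by
    have h2 : (n : ℤ) = 2 * a * (2 * U + 1) + r := sub_eq_iff_eq_add'.mp hr
    exact_mod_cast h2
  clear hr hpos key hxe hxe0 hx1' hx2'
  refine ⟨A, x, a, U, r, ?_, ?_, ha, hnr, by omega, by omega, by omega, by omega, hA70⟩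
  · omega
  · omega

/-- Every `s`-spanning set bounds `φ`. -/
theorem phi_le {n : ℕ} {A : Finset (ZMod n)} (h : IsSpanning n 2 A) : phi n 2 ≤ A.card :=
  Nat.sInf_le ⟨A, rfl, h⟩

theorem phi_le_self (n : ℕ) (hn : 1 ≤ n) : phi n 2 ≤ n := by
  have : NeZero n := ⟨by omega⟩
  have h : IsSpanning n 2 (Finset.univ : Finset (ZMod n)) :=
    spanning_of_sym fun g => ⟨g, 0, Or.inr (Or.inl (Finset.mem_univ _)), Or.inl rfl, by simp⟩
  have := phi_le h
  rwa [Finset.card_univ, ZMod.card] at this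

/-- The bound for large `n`, in integers. -/
theorem phi_bound (n : ℕ) (hn : 58800 ≤ n) : ∃ A x : ℕ, 12 * A ^ 2 ≤ n ∧ 3 * x ^ 2 ≤ A ∧
    phi n 2 ≤ 3 * A + 71 * x + 31 := by
  obtain ⟨A, x, a, U, r, h1, h2, h3, h4, h5, h6, h7, h8, h9⟩ := params n hn
  refine ⟨A, x, h1, h2, ?_⟩
  have hxA : 13 * x + 4 ≤ A := by
    rcases le_or_gt x 5 with h | h
    · omega
    · have : 5 * x ≤ x ^ 2 := by nlinarith
      omega
  have hc := cover n a U r (a + 30 * x + 14) (a + 30 * x + 14) (a + 14 * x + 2) h4 (by omega)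
    (by omega) (by omega) (by omega) (by omega) (by omega) (by omega) (by omega) (by omega)
    (by omega) (by omega) (by omega)
  refine (phi_le hc).trans ((card_AA _ _ _ _ _ _ _).trans ?_)
  omega

theorem real_bound (n : ℕ) (hn : 58800 ≤ n) :
    (phi n 2 : ℝ) ≤ √3 / 2 * √(n : ℝ) + 102 * √(√(n : ℝ)) := by
  obtain ⟨A, x, h1, h2, h3⟩ := phi_bound n hn
  have e1 : (12 * (A : ℝ) ^ 2) ≤ n := by exact_mod_cast h1
  have e2 : (3 * (x : ℝ) ^ 2) ≤ A := by exact_mod_cast h2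
  have e3 : (phi n 2 : ℝ) ≤ 3 * A + 71 * x + 31 := by exact_mod_cast h3
  have hn1 : (1 : ℝ) ≤ n := by
    have : 1 ≤ n := by omega
    exact_mod_cast this
  have s1 : (3 * A : ℝ) ≤ √3 / 2 * √(n : ℝ) := by
    apply le_of_sq_le_sq _ (by positivity)
    rw [mul_pow, mul_pow, div_pow, Real.sq_sqrt (by norm_num), Real.sq_sqrt (by positivity)]
    nlinarith
  have s2 : (x : ℝ) ≤ √(√(n : ℝ)) := by
    apply Real.le_sqrt_of_sq_le
    apply Real.le_sqrt_of_sq_le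
    have hA0 : (0 : ℝ) ≤ A := by positivity
    have hx0 : (0 : ℝ) ≤ (x : ℝ) ^ 2 := by positivity
    nlinarith
  have s3 : (1 : ℝ) ≤ √(√(n : ℝ)) := by
    rw [Real.one_le_sqrt, Real.one_le_sqrt]
    exact hn1
  linarith

/-- **MP_8aa97c_co, the upper half of Q1.**  With an absolute constant `C`,
`φ_±(ℤ_n,[0,2]) ≤ (√3/2)·√n + C·n^(1/4)` for all `n ≥ 1`; hence `φ_±(ℤ_n,[0,2]) ≤ c₂·√n` for some
`c₂ < 1` and all large `n`. -/
theorem result :
    (∃ C : ℝ, ∀ n : ℕ, 1 ≤ n → (phi n 2 : ℝ) ≤ √3 / 2 * √(n : ℝ) + C * √(√(n : ℝ))) ∧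
    (∃ c₂ : ℝ, c₂ < 1 ∧ ∀ᶠ n : ℕ in Filter.atTop, (phi n 2 : ℝ) ≤ c₂ * √(n : ℝ)) := by
  have hall : ∀ c : ℝ, √3 / 2 < c → ∀ᶠ n : ℕ in Filter.atTop, (phi n 2 : ℝ) ≤ c * √(n : ℝ) := by
    intro c hc
    have ht : Filter.Tendsto (fun n : ℕ => √(√(n : ℝ))) Filter.atTop Filter.atTop :=
      Real.tendsto_sqrt_atTop.comp (Real.tendsto_sqrt_atTop.comp tendsto_natCast_atTop_atTop)
    filter_upwards [Filter.eventually_ge_atTop 58800,
      ht.eventually_ge_atTop (102 / (c - √3 / 2))] with n hn hn2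
    have h := real_bound n hn
    have hd : 0 < c - √3 / 2 := by linarith
    have h2 : 102 ≤ √(√(n : ℝ)) * (c - √3 / 2) := (div_le_iff₀ hd).mp hn2
    have h3 : √(√(n : ℝ)) * √(√(n : ℝ)) = √(n : ℝ) := Real.mul_self_sqrt (Real.sqrt_nonneg _)
    have h4 : 102 * √(√(n : ℝ)) ≤ √(√(n : ℝ)) * (c - √3 / 2) * √(√(n : ℝ)) :=
      mul_le_mul_of_nonneg_right h2 (Real.sqrt_nonneg _)
    have h5 : √(√(n : ℝ)) * (c - √3 / 2) * √(√(n : ℝ)) = (c - √3 / 2) * √(n : ℝ) := by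
      calc √(√(n : ℝ)) * (c - √3 / 2) * √(√(n : ℝ))
          = (c - √3 / 2) * (√(√(n : ℝ)) * √(√(n : ℝ))) := by ring
        _ = (c - √3 / 2) * √(n : ℝ) := by rw [h3]
    rw [h5] at h4
    linarith
  refine ⟨⟨58800, ?_⟩, ?_⟩
  · intro n hn
    have hn1 : (1 : ℝ) ≤ n := by exact_mod_cast hn
    have s3 : (1 : ℝ) ≤ √(√(n : ℝ)) := by
      rw [Real.one_le_sqrt, Real.one_le_sqrt]
      exact hn1
    have s0 : 0 ≤ √3 / 2 * √(n : ℝ) := by positivity
    rcases lt_or_ge n 58800 with h | h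
    · have h1 : (phi n 2 : ℝ) ≤ n := by exact_mod_cast phi_le_self n hn
      have h2 : (n : ℝ) ≤ 58800 := by exact_mod_cast h.le
      nlinarith
    · have h1 := real_bound n h
      nlinarith
  · refine ⟨9 / 10, by norm_num, hall _ ?_⟩
    have : √3 < 9 / 5 := by
      rw [Real.sqrt_lt' (by norm_num)]
      norm_num
    linarith

end Pool.Agent.Results.MP_8aa97c_co.UpperHalf
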